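import Pool.Agent.H530R3.Qu.Gen
import Pool.Agent.H530R3.Thr.Final

/-!
# Probabilistically checkable proofs of exponential length relative to an oracle
-/

set_option autoImplicit false

namespace Pool.Agent.H530R3.Pcp

open Pool.Agent.NPC Pool.Agent.H628R3.RO MeasureTheory Filter
open Pool.Agent.H530R3.Thr hiding InP inNP_of_inP sens
open Pool.Agent.H530R3.Qu

/-- The oracle `A` together with the proof `pi`: the questions `true :: y` are answered by `A`, the
questions `false :: y` by `pi`. -/
def joinO (A pi : Oracle) : Oracle := fun x =>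
  match x with
  | [] => false
  | true :: y => A y
  | false :: y => pi y

/-- the number of the strings `r` of length `N` such that the algorithm `M` accepts `(x, r)` -/
noncomputable def accR (M : Alg) (B : Oracle) (N : ℕ) (x : List Bool) : ℕ :=
  Set.ncard {r : List Bool | r.length = N ∧ M.out B (pairBits x r) = some [true]}

/-- The language `L` has probabilistically checkable proofs relative to `A`: a polynomial-time
algorithm `M` reads `x` and a random string of polynomial length and asks questions to `A` and to a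
proof `pi`, an arbitrary function from bit strings to bits. If `x` is in `L` then for some `pi` it
accepts with probability at least `2/3`, otherwise for all `pi` with probability at most `1/3`. -/
def IsPCP (A : Oracle) (L : Set (List Bool)) : Prop :=
  ∃ (M : Alg) (q : Polynomial ℕ), ∀ x,
    (x ∈ L → ∃ pi : Oracle, 2 * 2 ^ q.eval x.length ≤
      3 * accR M (joinO A pi) (q.eval x.length) x) ∧
    (x ∉ L → ∀ pi : Oracle, 3 * accR M (joinO A pi) (q.eval x.length) x ≤ 2 ^ q.eval x.length)

theorem accR_eq (M : Alg) (B : Oracle) (N : ℕ) (x : List Bool) :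
    accR M B N x = ((words N).filter fun r => M.out B (pairBits x r) = some [true]).card := by
  unfold accR
  rw [← Set.ncard_coe_finset]
  congr 1
  ext r
  simp [mem_words]

open Classical in
/-- Few blocks are important for the verdict. -/
theorem sensR (M : Alg) (B : Oracle) (N : ℕ) (u : List Bool) {ι : Type*}
    (T : Finset ι) (J : ι → Set (List Bool))
    (hJ : ∀ i ∈ T, ∀ l ∈ T, i ≠ l → Disjoint (J i) (J l))
    (hacc : 2 * 2 ^ N ≤ 3 * accR M B N u)
    (hT : ∀ i ∈ T, ∃ B' : Oracle, (∀ x ∉ J i, B' x = B x) ∧ 3 * accR M B' N u ≤ 2 ^ N) :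
    T.card ≤ 3 * M.p.eval (2 * u.length + 1 + N) := by
  obtain ⟨qb, hqb⟩ := M.out_local
  set Q := M.p.eval (2 * u.length + 1 + N) with hQ
  set R := (words N).filter fun r => M.out B (pairBits u r) = some [true] with hR
  have hRc : accR M B N u = R.card := accR_eq M B N u
  have hch : ∀ r : List Bool, ∃ Qr : Finset (List Bool), r ∈ R → Qr.card ≤ Q ∧
      ∀ B' : Oracle, (∀ x ∈ Qr, B' x = B x) → M.out B' (pairBits u r) = some [true] := by
    intro r
    by_cases hr : r ∈ R
    · have hr' := hr
      rw [hR, Finset.mem_filter, mem_words] at hr'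
      obtain ⟨hr1, h1⟩ := hr'
      obtain ⟨Qr, h2, h3, h4⟩ := hqb B (pairBits u r)
      refine ⟨Qr, fun _ => ⟨h2.trans (eval_mono' _ ?_), fun B' hB' => ?_⟩⟩
      · rw [length_pairBits, hr1]
      · rw [h4 B' hB', h1]
    · exact ⟨∅, fun h => absurd h hr⟩
  choose Qr hQr using hch
  have h1 : ∀ i ∈ T, 2 ^ N ≤ 3 * (R.filter fun r => ¬ Disjoint (Qr r : Set (List Bool)) (J i)).card := by
    intro i hi
    obtain ⟨B', hB', hacc'⟩ := hT i hi
    have h2 : (R.filter fun r => Disjoint (Qr r : Set (List Bool)) (J i)) ⊆ (words N).filter fun r =>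
        M.out B' (pairBits u r) = some [true] := by
      intro r hr
      rw [Finset.mem_filter] at hr
      rw [Finset.mem_filter]
      have hr1 : r ∈ words N := by
        have := hr.1
        rw [hR, Finset.mem_filter] at this
        exact this.1
      refine ⟨hr1, (hQr r hr.1).2 B' fun x hx => hB' x fun hxJ => ?_⟩
      exact (Set.disjoint_left.1 hr.2) (Finset.mem_coe.2 hx) hxJ
    have h3 := Finset.card_le_card h2
    rw [← accR_eq] at h3
    have h4 := Finset.card_filter_add_card_filter_not (s := R)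
      (fun r => Disjoint (Qr r : Set (List Bool)) (J i))
    rw [hRc] at hacc
    omega
  have h2 : ∑ i ∈ T, (R.filter fun r => ¬ Disjoint (Qr r : Set (List Bool)) (J i)).card ≤
      R.card * Q := by
    have h3 : ∑ i ∈ T, (R.filter fun r => ¬ Disjoint (Qr r : Set (List Bool)) (J i)).card =
        ∑ r ∈ R, (T.filter fun i => ¬ Disjoint (Qr r : Set (List Bool)) (J i)).card := by
      simp only [Finset.card_filter]
      rw [Finset.sum_comm]
    rw [h3]
    refine (Finset.sum_le_card_nsmul R _ Q fun r hr => ?_).trans_eq (by simp)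
    refine le_trans ?_ (hQr r hr).1
    have h4 : ∀ i, ∃ x : List Bool, (¬ Disjoint (Qr r : Set (List Bool)) (J i)) →
        x ∈ Qr r ∧ x ∈ J i := by
      intro i
      by_cases h5 : Disjoint (Qr r : Set (List Bool)) (J i)
      · exact ⟨[], fun h => absurd h5 h⟩
      · rw [Set.not_disjoint_iff] at h5
        obtain ⟨x, hx, hx'⟩ := h5
        exact ⟨x, fun _ => ⟨Finset.mem_coe.1 hx, hx'⟩⟩
    choose f hf using h4
    refine Finset.card_le_card_of_injOn f ?_ ?_
    · intro i hi
      have hi' := (Finset.mem_filter.1 (Finset.mem_coe.1 hi)).2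
      exact Finset.mem_coe.2 (hf i hi').1
    · intro i hi l hl hfl
      have hi' := Finset.mem_filter.1 (Finset.mem_coe.1 hi)
      have hl' := Finset.mem_filter.1 (Finset.mem_coe.1 hl)
      by_contra hne
      have h6 := hJ i hi'.1 l hl'.1 hne
      have h7 := (hf i hi'.2).2
      have h8 := (hf l hl'.2).2
      rw [← hfl] at h8
      exact (Set.disjoint_left.1 h6) h7 h8
  have h3 : R.card ≤ 2 ^ N := by
    calc R.card ≤ (words N).card := Finset.card_filter_le _ _
      _ = 2 ^ N := card_words N
  have h4 : T.card * 2 ^ N ≤ 3 * (R.card * Q) := by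
    calc T.card * 2 ^ N = ∑ _i ∈ T, 2 ^ N := by simp
      _ ≤ ∑ i ∈ T, 3 * (R.filter fun r => ¬ Disjoint (Qr r : Set (List Bool)) (J i)).card :=
        Finset.sum_le_sum h1
      _ = 3 * ∑ i ∈ T, (R.filter fun r => ¬ Disjoint (Qr r : Set (List Bool)) (J i)).card := by
        rw [Finset.mul_sum]
      _ ≤ 3 * (R.card * Q) := Nat.mul_le_mul_left _ h2
  have h5 : T.card * 2 ^ N ≤ (3 * Q) * 2 ^ N := by
    calc T.card * 2 ^ N ≤ 3 * (R.card * Q) := h4
      _ ≤ 3 * (2 ^ N * Q) := by gcongr
      _ = (3 * Q) * 2 ^ N := by ring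
  exact Nat.le_of_mul_le_mul_right h5 (by positivity)

theorem accR_congr (M : Alg) : ∃ qb : Polynomial ℕ, ∀ (N : ℕ) (u : List Bool) (B B' : Oracle),
    (∀ x : List Bool, x.length ≤ qb.eval (2 * u.length + 1 + N) → B x = B' x) →
      accR M B N u = accR M B' N u := by
  obtain ⟨qb, hqb⟩ := M.out_local
  refine ⟨qb, fun N u B B' h => ?_⟩
  unfold accR
  congr 1
  ext r
  simp only [Set.mem_ofPred_eq]
  refine and_congr_right fun hr => ?_
  obtain ⟨Q, _, h2, h3⟩ := hqb B (pairBits u r)
  rw [h3 B' fun x hx => (h x ((h2 x hx).trans (eval_mono' qb (by rw [length_pairBits, hr])))).symm]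

theorem joinO_congr {A A' : Oracle} (pi : Oracle) {n : ℕ}
    (h : ∀ x : List Bool, x.length ≤ n → A x = A' x) :
    ∀ x : List Bool, x.length ≤ n → joinO A pi x = joinO A' pi x := by
  intro x hx
  match x, hx with
  | [], _ => rfl
  | true :: y, hx => exact h y (by rw [List.length_cons] at hx; omega)
  | false :: y, _ => rfl

/-- the verifier for probabilistically checkable proofs -/
noncomputable def verPCP (M : Alg) (q : Polynomial ℕ) : Ver where
  Hi A u := ∃ pi : Oracle, 2 * 2 ^ q.eval u.length ≤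
      3 * accR M (joinO A pi) (q.eval u.length) u
  Lo A u := ∃ pi : Oracle, 2 ^ q.eval u.length < 3 * accR M (joinO A pi) (q.eval u.length) u
  lb u := (Classical.choose (accR_congr M)).eval (2 * u.length + 1 + q.eval u.length)
  Qs u := 3 * M.p.eval (2 * u.length + 1 + q.eval u.length)
  locHi u A A' h := exists_congr fun pi => by
    rw [Classical.choose_spec (accR_congr M) _ u _ _ (joinO_congr pi h)]
  locLo u A A' h := exists_congr fun pi => by
    rw [Classical.choose_spec (accR_congr M) _ u _ _ (joinO_congr pi h)]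
  sens u A hA B F J hJ hF := by
    obtain ⟨pi, hacc⟩ := hA
    refine sensR M (joinO A pi) (q.eval u.length) u F
      (fun w => {x | ∃ y ∈ J w, x = true :: y}) ?_ hacc ?_
    · intro w hw w' hw' hne
      rw [Set.disjoint_left]
      rintro x ⟨y, hy, rfl⟩ ⟨y', hy', h⟩
      simp only [List.cons.injEq, true_and] at h
      subst h
      exact (Finset.disjoint_left.1 (hJ w (hF w hw).1 w' (hF w' hw').1 hne)) hy hy'
    · intro w hw
      obtain ⟨_, A', h2, h3⟩ := hF w hw
      push Not at h3
      refine ⟨joinO A' pi, fun x hx => ?_, h3 pi⟩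
      match x, hx with
      | [], _ => rfl
      | true :: y, hx => exact h2 y fun hy => hx ⟨y, hy, rfl⟩
      | false :: y, _ => rfl

variable (p : ℕ → unitInterval)

theorem ae_not_isPCP (h : ¬ Summable (lam p)) :
    ∀ᵐ A ∂(biasedOracle p), ¬ IsPCP A (Lang A)ᶜ := by
  have hc : Countable Alg := Alg.countable
  have hp : Countable (Polynomial ℕ) := countable_polynomial
  have h1 : ∀ᵐ A ∂(biasedOracle p), ∀ (M : Alg) (q : Polynomial ℕ),
      ¬ ∀ u, A ∈ (verPCP M q).Good u := by
    rw [ae_all_iff]
    intro M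
    rw [ae_all_iff]
    intro q
    rw [ae_iff]
    simp only [not_not]
    refine Ver.null p h (verPCP M q) (3 * M.p.comp (2 * Polynomial.X + 1 + q)) fun u => ?_
    simp only [Polynomial.eval_mul, Polynomial.eval_comp, Polynomial.eval_add, Polynomial.eval_X,
      Polynomial.eval_ofNat, Polynomial.eval_one]
    exact le_rfl
  filter_upwards [h1] with A hA
  rintro ⟨M, q, hV⟩
  refine hA M q fun u => ⟨fun hu => (hV u).1 hu, fun hu => ?_⟩
  rintro ⟨pi, h2⟩
  exact absurd ((hV u).2 (not_not.2 hu) pi) (not_le.2 h2)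

theorem divergentPCP (h : ¬ Summable (lam p)) :
    ∀ᵐ A ∂(biasedOracle p), ∃ L : Set (List Bool), IsNP A L ∧ ¬ IsNP A Lᶜ ∧ ¬ IsPCP A Lᶜ := by
  filter_upwards [ae_not_isPCP p h, ae_not_isAM p h] with A hA hA'
  exact ⟨Lang A, isNP_Lang A, fun h2 => hA' (IsNP.isAM h2), hA⟩

/-! ### `NP = coNP` -/

theorem inNP_of_empty {L : Set (List Bool)} (h : IsNP (fun _ => false) L) : InNP L := by
  obtain ⟨V, q, ⟨M, hM⟩, h⟩ := h
  have h1 : Poly (fun x : List Bool => if M.out (ofL []) x = some [true] then [true] else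
      ([] : List Bool)) :=
    Poly.ite (Poly.decide_eq (p_out M (S := fun _ => []) (NPC.Poly.const []) Poly.id)
      (NPC.Poly.const _)) (NPC.Poly.const _) (NPC.Poly.const _)
  refine ⟨_, q, H622R2.polyTime_of_poly_list h1, fun x => ?_⟩
  have e : (fun _ => false : Oracle) = ofL [] := by
    funext x
    simp [ofL]
  rw [h x]
  refine exists_congr fun w => and_congr_right fun _ => ?_
  rw [← e, hM]
  by_cases h2 : V (pairBits x w) = [true]
  · simp [h2]
  · simp [h2]

theorem inNP_iff_empty {L : Set (List Bool)} : InNP L ↔ IsNP (fun _ => false) L :=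
  ⟨isNP_of_inNP _, inNP_of_empty⟩

theorem convergent_iff (hp : ∀ n, (p n : ℝ) ≤ 1 / 2) (h : Summable (lam p)) :
    ∀ᵐ A ∂(biasedOracle p), (∀ L : Set (List Bool), IsNP A L ↔ IsNP A Lᶜ) ↔
      ∀ L : Set (List Bool), InNP L ↔ InCoNP L := by
  filter_upwards [convergent p h] with A hA
  refine forall_congr' fun L => ?_
  rw [(hA.2 L).2, (hA.2 Lᶜ).2, major_eq_empty p hp, ← inNP_iff_empty, ← inNP_iff_empty]
  rfl

theorem not_ae (h : ¬ Summable (lam p)) :
    ∀ᵐ A ∂(biasedOracle p), ¬ ∀ L : Set (List Bool), IsNP A L ↔ IsNP A Lᶜ := by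
  filter_upwards [divergentPCP p h] with A hA hAA
  obtain ⟨L, h1, h2, _⟩ := hA
  exact h2 ((hAA L).1 h1)

theorem conp_iff : (∀ L : Set (List Bool), InNP L ↔ InCoNP L) ↔
    ∀ p : ℕ → unitInterval, (∀ n, (p n : ℝ) ≤ 1 / 2) →
      ((∀ᵐ A ∂(biasedOracle p), ∀ L : Set (List Bool), IsNP A L ↔ IsNP A Lᶜ) ↔
        Summable (lam p)) := by
  constructor
  · intro h p hp
    constructor
    · intro h1
      by_contra h2
      obtain ⟨A, hA, hA'⟩ := (h1.and (not_ae p h2)).exists
      exact hA' hA
    · intro hs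
      filter_upwards [convergent_iff p hp hs] with A hA
      exact hA.2 h
  · intro h
    have h0 : ∀ n, (zeroDensity n : ℝ) ≤ 1 / 2 := fun n => by simp [zeroDensity]
    have h1 := (h zeroDensity h0).2 summable_zeroDensity
    obtain ⟨A, hA, hA'⟩ := (h1.and (convergent_iff zeroDensity h0 summable_zeroDensity)).exists
    exact hA'.1 hA

theorem conp_iff' : (∀ L : Set (List Bool), InNP L ↔ InCoNP L) ↔
    ∃ p : ℕ → unitInterval, (∀ n, (p n : ℝ) ≤ 1 / 2) ∧
      0 < biasedOracle p {A | ∀ L : Set (List Bool), IsNP A L ↔ IsNP A Lᶜ} := by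
  constructor
  · intro h
    have h0 : ∀ n, (zeroDensity n : ℝ) ≤ 1 / 2 := fun n => by simp [zeroDensity]
    refine ⟨zeroDensity, h0, ?_⟩
    rw [pos_iff_ne_zero]
    intro h2
    have h3 : ∀ᵐ A ∂(biasedOracle zeroDensity),
        ¬ ∀ L : Set (List Bool), IsNP A L ↔ IsNP A Lᶜ := by
      rw [ae_iff]
      simpa only [not_not] using h2
    obtain ⟨A, hA, hA'⟩ := ((convergent_iff zeroDensity h0 summable_zeroDensity).and h3).exists
    exact hA' (hA.2 h)
  · rintro ⟨p, hp, hpos⟩
    have hs : Summable (lam p) := by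
      by_contra h1
      have h2 := not_ae p h1
      rw [ae_iff] at h2
      simp only [not_not] at h2
      rw [h2] at hpos
      exact lt_irrefl _ hpos
    by_contra hcon
    have h1 : ∀ᵐ A ∂(biasedOracle p), ¬ ∀ L : Set (List Bool), IsNP A L ↔ IsNP A Lᶜ := by
      filter_upwards [convergent_iff p hp hs] with A hA
      exact fun h2 => hcon (hA.1 h2)
    rw [ae_iff] at h1
    simp only [not_not] at h1
    rw [h1] at hpos
    exact lt_irrefl _ hpos

end Pool.Agent.H530R3.Pcp
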